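import Pool.Agent.H75.SQ.Basic

/-!
# (DFB): the changes of the state
-/

set_option autoImplicit false

open Finset Matrix Pool.Agent.H75.SQ

namespace Pool.Agent.H32.SQ.DFB

section norms

variable {ι : Type} [Fintype ι]

theorem nm_eq (a : ι → ℂ) : nm a = ‖(WithLp.toLp 2 a : EuclideanSpace ℂ ι)‖ := by
  rw [EuclideanSpace.norm_eq]
  rfl

theorem nm_nonneg (a : ι → ℂ) : 0 ≤ nm a := Real.sqrt_nonneg _

theorem nm_sq (a : ι → ℂ) : nm a ^ 2 = ∑ x, ‖a x‖ ^ 2 :=
  Real.sq_sqrt (Finset.sum_nonneg fun _ _ => by positivity)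

theorem nm_add_le (a b : ι → ℂ) : nm (fun x => a x + b x) ≤ nm a + nm b := by
  rw [nm_eq, nm_eq, nm_eq]
  exact norm_add_le (WithLp.toLp 2 a : EuclideanSpace ℂ ι) (WithLp.toLp 2 b)

theorem cs (y a : ι → ℂ) (S : Finset ι) (h : ∀ s ∉ S, a s = 0) :
    ‖∑ s, star (y s) * a s‖ ^ 2 ≤ (∑ s ∈ S, ‖y s‖ ^ 2) * nm a ^ 2 := by
  have h1 : ∑ s, star (y s) * a s = ∑ s ∈ S, star (y s) * a s := by
    symm
    apply Finset.sum_subset (Finset.subset_univ S)
    intro s _ hs
    rw [h s hs, mul_zero]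
  have h2 : ‖∑ s, star (y s) * a s‖ ≤ ∑ s ∈ S, ‖y s‖ * ‖a s‖ := by
    rw [h1]
    refine (norm_sum_le _ _).trans (Finset.sum_le_sum fun s _ => ?_)
    rw [norm_mul, norm_star]
  have h3 := Finset.sum_mul_sq_le_sq_mul_sq S (fun s => ‖y s‖) (fun s => ‖a s‖)
  have h4 : ∑ s ∈ S, ‖a s‖ ^ 2 ≤ nm a ^ 2 := by
    rw [nm_sq]
    exact Finset.sum_le_sum_of_subset_of_nonneg (Finset.subset_univ S)
      fun _ _ _ => by positivity
  calc ‖∑ s, star (y s) * a s‖ ^ 2 ≤ (∑ s ∈ S, ‖y s‖ * ‖a s‖) ^ 2 :=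
        pow_le_pow_left₀ (norm_nonneg _) h2 2
    _ ≤ (∑ s ∈ S, ‖y s‖ ^ 2) * ∑ s ∈ S, ‖a s‖ ^ 2 := h3
    _ ≤ _ := mul_le_mul_of_nonneg_left h4 (Finset.sum_nonneg fun _ _ => by positivity)

theorem nm_prod (q : ℕ) (a : Fin q → ι → ℂ) :
    nm (fun s : Fin q → ι => ∏ l, a l (s l)) = ∏ l, nm (a l) := by
  have h0 : 0 ≤ ∏ l, nm (a l) := Finset.prod_nonneg fun _ _ => nm_nonneg _
  have h1 : nm (fun s : Fin q → ι => ∏ l, a l (s l)) ^ 2 = (∏ l, nm (a l)) ^ 2 := by
    rw [nm_sq, ← Finset.prod_pow]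
    simp only [nm_sq]
    have h := Finset.prod_univ_sum (fun _ : Fin q => (Finset.univ : Finset ι))
      (fun l x => ‖a l x‖ ^ 2)
    rw [Fintype.piFinset_univ] at h
    rw [h]
    refine Finset.sum_congr rfl fun s _ => ?_
    rw [norm_prod, Finset.prod_pow]
  exact (pow_left_inj₀ (nm_nonneg _) h0 (by norm_num)).1 h1

theorem nm_cons (q : ℕ) (a : ι → ℂ) (b : (Fin q → ι) → ℂ) :
    nm (fun s : Fin (q + 1) → ι => a (s 0) * b (fun l => s l.succ)) = nm a * nm b := by
  have h1 : nm (fun s : Fin (q + 1) → ι => a (s 0) * b (fun l => s l.succ)) ^ 2 =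
      (nm a * nm b) ^ 2 := by
    rw [nm_sq, mul_pow, nm_sq, nm_sq, ← (Fin.consEquiv fun _ : Fin (q + 1) => ι).sum_comp,
      Fintype.sum_prod_type, Finset.sum_mul]
    refine Finset.sum_congr rfl fun x _ => ?_
    rw [Finset.mul_sum]
    refine Finset.sum_congr rfl fun s _ => ?_
    have e : (Fin.consEquiv fun _ : Fin (q + 1) => ι) (x, s) = Fin.cons x s := rfl
    rw [e]
    simp only [Fin.cons_zero, Fin.cons_succ]
    rw [norm_mul, mul_pow]
  exact (pow_left_inj₀ (nm_nonneg _) (mul_nonneg (nm_nonneg _) (nm_nonneg _))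
    (by norm_num)).1 h1

/-- the power -/
def tp (q : ℕ) (f : ι → ℂ) (s : Fin q → ι) : ℂ := ∏ l, f (s l)

/-- the linear part -/
def lp (q : ℕ) (f D : ι → ℂ) (s : Fin q → ι) : ℂ :=
  ∑ t, ∏ l, (Function.update (fun _ => f) t D : Fin q → ι → ℂ) l (s l)

omit [Fintype ι] in
theorem tp_succ (q : ℕ) (f : ι → ℂ) (s : Fin (q + 1) → ι) :
    tp (q + 1) f s = f (s 0) * tp q f (fun l => s l.succ) := Fin.prod_univ_succ _

omit [Fintype ι] in
theorem lp_succ (q : ℕ) (f D : ι → ℂ) (s : Fin (q + 1) → ι) :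
    lp (q + 1) f D s = D (s 0) * tp q f (fun l => s l.succ) +
      f (s 0) * lp q f D (fun l => s l.succ) := by
  unfold lp
  rw [Fin.sum_univ_succ]
  congr 1
  · rw [Fin.prod_univ_succ, Function.update_self]
    congr 1
  · rw [Finset.mul_sum]
    refine Finset.sum_congr rfl fun t _ => ?_
    rw [Fin.prod_univ_succ]
    congr 1
    refine Finset.prod_congr rfl fun l _ => ?_
    by_cases h : l = t
    · rw [h, Function.update_self, Function.update_self]
    · rw [Function.update_of_ne h, Function.update_of_ne (fun h' => h (Fin.succ_injective _ h'))]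

theorem nm_tp (q : ℕ) (f : ι → ℂ) (hf : nm f = 1) : nm (tp q f) = 1 := by
  have h := nm_prod q (fun _ => f)
  rw [Finset.prod_const, hf, one_pow] at h
  exact h

theorem tele (q : ℕ) (f g : ι → ℂ) (hf : nm f = 1) (hg : nm g = 1) :
    nm (fun s => tp q f s - tp q g s) ≤ q * nm (fun x => f x - g x) := by
  induction q with
  | zero =>
    have h : nm (fun s : Fin 0 → ι => tp 0 f s - tp 0 g s) = 0 := by
      unfold nm tp
      simp
    rw [h]
    simp
  | succ q ih =>
    have e : (fun s : Fin (q + 1) → ι => tp (q + 1) f s - tp (q + 1) g s) =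
        fun s => (fun x => f x - g x) (s 0) * tp q f (fun l => s l.succ) +
          g (s 0) * (fun s => tp q f s - tp q g s) (fun l => s l.succ) := by
      funext s
      rw [tp_succ, tp_succ]
      ring
    rw [e]
    refine (nm_add_le _ _).trans ?_
    rw [nm_cons q (fun x => f x - g x) (tp q f), nm_cons q g (fun s => tp q f s - tp q g s),
      nm_tp q f hf, hg]
    push_cast
    linarith

theorem rem (q : ℕ) (f g : ι → ℂ) (hf : nm f = 1) (hg : nm g = 1) :
    nm (fun s => lp q f (fun x => f x - g x) s - (tp q f s - tp q g s)) ≤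
      (q : ℝ) ^ 2 / 2 * nm (fun x => f x - g x) ^ 2 := by
  induction q with
  | zero =>
    have h : nm (fun s : Fin 0 → ι => lp 0 f (fun x => f x - g x) s -
        (tp 0 f s - tp 0 g s)) = 0 := by
      unfold nm tp lp
      simp
    rw [h]
    positivity
  | succ q ih =>
    have e : (fun s : Fin (q + 1) → ι => lp (q + 1) f (fun x => f x - g x) s -
        (tp (q + 1) f s - tp (q + 1) g s)) =
        fun s => f (s 0) * (fun s => lp q f (fun x => f x - g x) s -
          (tp q f s - tp q g s)) (fun l => s l.succ) +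
          (fun x => f x - g x) (s 0) * (fun s => tp q f s - tp q g s) (fun l => s l.succ) := by
      funext s
      rw [tp_succ, tp_succ, lp_succ]
      ring
    rw [e]
    refine (nm_add_le _ _).trans ?_
    rw [nm_cons q f (fun s => lp q f (fun x => f x - g x) s - (tp q f s - tp q g s)),
      nm_cons q (fun x => f x - g x) (fun s => tp q f s - tp q g s), hf]
    have h1 := mul_le_mul_of_nonneg_left (tele q f g hf hg) (nm_nonneg (fun x => f x - g x))
    have h2 : 0 ≤ nm (fun x => f x - g x) ^ 2 := by positivity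
    push_cast
    nlinarith

end norms

section main

variable {γ : Type} [Fintype γ] [DecidableEq γ]

omit [Fintype γ] in
theorem D_supp {m : ℕ} (F : Fin m → γ) (i : Fin m) (c : γ) (x : Fin m × γ) (hx : x.1 ≠ i) :
    fs F x - fs (Function.update F i c) x = 0 := by
  unfold fs
  rw [Function.update_of_ne hx, sub_self]

theorem D_norm {m : ℕ} (hm : 0 < m) (F : Fin m → γ) (i : Fin m) (c : γ) :
    nm (fun x => fs F x - fs (Function.update F i c) x) ^ 2 ≤ 2 / m := by
  have hm' : (0 : ℝ) < m := by exact_mod_cast hm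
  rw [nm_sq, Fintype.sum_prod_type, Finset.sum_eq_single i]
  · have h1 : ∀ C : γ, ‖fs F (i, C) - fs (Function.update F i c) (i, C)‖ ^ 2 ≤
        (if F i = C then (1 / m : ℝ) else 0) + (if c = C then (1 / m : ℝ) else 0) := by
      intro C
      have hs : (1 / Real.sqrt m) ^ 2 = (1 / m : ℝ) := by
        rw [div_pow, Real.sq_sqrt hm'.le, one_pow]
      unfold fs
      simp only [Function.update_self]
      by_cases h1 : F i = C
      · rw [if_pos h1, if_pos h1]
        by_cases h2 : c = C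
        · rw [if_pos h2, if_pos h2, sub_self, norm_zero]
          have : (0 : ℝ) ≤ 1 / m := by positivity
          norm_num
        · rw [if_neg h2, if_neg h2, sub_zero, Complex.norm_real, Real.norm_eq_abs, sq_abs, hs]
          linarith
      · rw [if_neg h1, if_neg h1]
        by_cases h2 : c = C
        · rw [if_pos h2, if_pos h2, zero_sub, norm_neg, Complex.norm_real, Real.norm_eq_abs,
            sq_abs, hs]
          linarith
        · rw [if_neg h2, if_neg h2, sub_zero, norm_zero]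
          norm_num
    refine (Finset.sum_le_sum fun C _ => h1 C).trans ?_
    rw [Finset.sum_add_distrib, Finset.sum_ite_eq, Finset.sum_ite_eq, if_pos (Finset.mem_univ _),
      if_pos (Finset.mem_univ _)]
    apply le_of_eq
    ring
  · intro j _ hj
    refine Finset.sum_eq_zero fun C _ => ?_
    rw [D_supp F i c (j, C) hj, norm_zero]
    norm_num
  · intro h
    exact absurd (Finset.mem_univ _) h

theorem obs_zero (ι : Type) [Fintype ι] : Obs (0 : Matrix ι ι ℂ) := by
  refine ⟨Matrix.isHermitian_zero, fun a => ?_⟩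
  unfold qf
  rw [Matrix.zero_mulVec, dotProduct_zero, Complex.zero_re, abs_zero]
  exact Finset.sum_nonneg fun _ _ => by positivity

theorem pf_DFB (hNRM : T_NRM) (_hTPW : T_TPW) : T_DFB := by
  intro γ _ _ m q F C y hm hy
  have hm' : (0 : ℝ) < m := by exact_mod_cast hm
  have hn : ∀ G : Fin m → γ, nm (fs G) = 1 := fun G =>
    (hNRM γ m q G (fun _ => 0) 0 hm (obs_zero _)).1
  set g : Fin m → Fin m × γ → ℂ := fun i => fs (Function.update F i (C i)) with hg
  set D : Fin m → Fin m × γ → ℂ := fun i x => fs F x - g i x with hD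
  have hDn : ∀ i, nm (D i) ^ 2 ≤ 2 / m := fun i => D_norm hm F i (C i)
  set P : Fin m → Fin q → (Fin q → Fin m × γ) → ℂ := fun i t s =>
    ∏ l, (Function.update (fun _ => fs F) t (D i) : Fin q → Fin m × γ → ℂ) l (s l) with hP
  have hPn : ∀ i t, nm (P i t) ^ 2 ≤ 2 / m := by
    intro i t
    have h1 : nm (P i t) = nm (D i) := by
      rw [hP]
      show nm (fun s : Fin q → Fin m × γ =>
        ∏ l, (Function.update (fun _ => fs F) t (D i) : Fin q → Fin m × γ → ℂ) l (s l)) = _
      rw [nm_prod, ← Finset.mul_prod_erase univ _ (Finset.mem_univ t), Function.update_self,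
        Finset.prod_eq_one, mul_one]
      intro l hl
      rw [Function.update_of_ne (Finset.ne_of_mem_erase hl)]
      exact hn F
    rw [h1]
    exact hDn i
  -- the linear part
  have hlin : ∀ t, ∑ i, ‖∑ s, star (y s) * P i t s‖ ^ 2 ≤ 2 / m := by
    intro t
    have h1 : ∀ i, ‖∑ s, star (y s) * P i t s‖ ^ 2 ≤
        (∑ s ∈ univ.filter (fun s : Fin q → Fin m × γ => (s t).1 = i), ‖y s‖ ^ 2) * (2 / m) := by
      intro i
      refine (cs y (P i t) (univ.filter fun s => (s t).1 = i) ?_).trans ?_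
      · intro s hs
        rw [hP]
        apply Finset.prod_eq_zero (Finset.mem_univ t)
        rw [Function.update_self]
        apply D_supp
        intro h
        exact hs (Finset.mem_filter.2 ⟨Finset.mem_univ _, h⟩)
      · exact mul_le_mul_of_nonneg_left (hPn i t) (Finset.sum_nonneg fun _ _ => by positivity)
    refine (Finset.sum_le_sum fun i _ => h1 i).trans ?_
    rw [← Finset.sum_mul, Finset.sum_fiberwise univ (fun s : Fin q → Fin m × γ => (s t).1)
      (fun s => ‖y s‖ ^ 2), ← nm_sq]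
    have h2 : nm y ^ 2 ≤ 1 := by
      have := nm_nonneg y
      nlinarith
    have h3 : (0 : ℝ) ≤ 2 / m := by positivity
    nlinarith
  -- the remainder
  set R : Fin m → (Fin q → Fin m × γ) → ℂ := fun i s =>
    lp q (fs F) (D i) s - (tp q (fs F) s - tp q (g i) s) with hR
  have hRn : ∀ i, nm (R i) ≤ (q : ℝ) ^ 2 / m := by
    intro i
    refine (rem q (fs F) (g i) (hn F) (hn _)).trans ?_
    have h1 := hDn i
    have h2 : (q : ℝ) ^ 2 / 2 * nm (D i) ^ 2 ≤ (q : ℝ) ^ 2 / 2 * (2 / m) :=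
      mul_le_mul_of_nonneg_left h1 (by positivity)
    refine h2.trans (le_of_eq ?_)
    field_simp
  have hRs : ∀ i, ‖∑ s, star (y s) * R i s‖ ^ 2 ≤ (q : ℝ) ^ 4 / m ^ 2 := by
    intro i
    refine (cs y (R i) univ fun s hs => absurd (Finset.mem_univ s) hs).trans ?_
    rw [← nm_sq]
    have h1 := hRn i
    have h2 := nm_nonneg (R i)
    have h3 := nm_nonneg y
    have h4 : nm y ^ 2 ≤ 1 := by nlinarith
    have h5 : nm (R i) ^ 2 ≤ ((q : ℝ) ^ 2 / m) ^ 2 := pow_le_pow_left₀ h2 h1 2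
    have h6 : nm y ^ 2 * nm (R i) ^ 2 ≤ 1 * ((q : ℝ) ^ 2 / m) ^ 2 :=
      mul_le_mul h4 h5 (by positivity) (by norm_num)
    refine h6.trans (le_of_eq ?_)
    rw [one_mul, div_pow]
    ring
  -- together
  have hdec : ∀ i, ∑ s, star (y s) * (fq q F s - fq q (Function.update F i (C i)) s) =
      (∑ t, ∑ s, star (y s) * P i t s) - ∑ s, star (y s) * R i s := by
    intro i
    rw [Finset.sum_comm, ← Finset.sum_sub_distrib]
    refine Finset.sum_congr rfl fun s _ => ?_
    rw [← Finset.mul_sum, ← mul_sub]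
    congr 1
    have e1 : fq q F s = tp q (fs F) s := rfl
    have e2 : fq q (Function.update F i (C i)) s = tp q (g i) s := rfl
    have e3 : ∑ t, P i t s = lp q (fs F) (D i) s := rfl
    rw [e1, e2, e3]
    show _ = lp q (fs F) (D i) s - (lp q (fs F) (D i) s - (tp q (fs F) s - tp q (g i) s))
    ring
  have hone : ∀ i, ‖∑ s, star (y s) * (fq q F s - fq q (Function.update F i (C i)) s)‖ ^ 2 ≤
      2 * (q * ∑ t, ‖∑ s, star (y s) * P i t s‖ ^ 2) + 2 * ((q : ℝ) ^ 4 / m ^ 2) := by
    intro i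
    rw [hdec i]
    have h1 : ‖(∑ t, ∑ s, star (y s) * P i t s) - ∑ s, star (y s) * R i s‖ ≤
        ‖∑ t, ∑ s, star (y s) * P i t s‖ + ‖∑ s, star (y s) * R i s‖ := norm_sub_le _ _
    have h2 : ‖∑ t, ∑ s, star (y s) * P i t s‖ ^ 2 ≤
        q * ∑ t, ‖∑ s, star (y s) * P i t s‖ ^ 2 := by
      have a1 : ‖∑ t, ∑ s, star (y s) * P i t s‖ ≤ ∑ t, ‖∑ s, star (y s) * P i t s‖ :=
        norm_sum_le _ _
      have a2 : (∑ t : Fin q, ‖∑ s, star (y s) * P i t s‖) ^ 2 ≤
          q * ∑ t, ‖∑ s, star (y s) * P i t s‖ ^ 2 := by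
        have := sq_sum_le_card_mul_sum_sq (s := (univ : Finset (Fin q)))
          (f := fun t => ‖∑ s, star (y s) * P i t s‖)
        rw [Finset.card_univ, Fintype.card_fin] at this
        exact this
      exact (pow_le_pow_left₀ (norm_nonneg _) a1 2).trans a2
    have h3 := hRs i
    have h4 := norm_nonneg (∑ t, ∑ s, star (y s) * P i t s)
    have h5 := norm_nonneg (∑ s, star (y s) * R i s)
    have h6 := norm_nonneg ((∑ t, ∑ s, star (y s) * P i t s) - ∑ s, star (y s) * R i s)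
    nlinarith [sq_nonneg (‖∑ t, ∑ s, star (y s) * P i t s‖ - ‖∑ s, star (y s) * R i s‖)]
  refine (Finset.sum_le_sum fun i _ => hone i).trans ?_
  rw [Finset.sum_add_distrib, ← Finset.mul_sum, ← Finset.mul_sum, Finset.sum_comm,
    Finset.sum_const, Finset.card_univ, Fintype.card_fin, nsmul_eq_mul]
  have h1 : ∑ t : Fin q, ∑ i, ‖∑ s, star (y s) * P i t s‖ ^ 2 ≤ q * (2 / m) := by
    refine (Finset.sum_le_sum fun t _ => hlin t).trans ?_
    rw [Finset.sum_const, Finset.card_univ, Fintype.card_fin, nsmul_eq_mul]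
  have h2 : (m : ℝ) * (2 * ((q : ℝ) ^ 4 / m ^ 2)) = 2 * q ^ 4 / m := by
    field_simp
  rw [h2]
  have h3 : (q : ℝ) * ∑ t : Fin q, ∑ i, ‖∑ s, star (y s) * P i t s‖ ^ 2 ≤ q * (q * (2 / m)) :=
    mul_le_mul_of_nonneg_left h1 (Nat.cast_nonneg q)
  have h4 : (q : ℝ) ^ 2 ≤ q ^ 4 := by
    have : q ^ 2 ≤ q ^ 4 := by
      rcases Nat.eq_zero_or_pos q with h | h
      · rw [h]
        norm_num
      · exact Nat.pow_le_pow_right h (by norm_num)
    exact_mod_cast this
  have h5 : 2 * ((q : ℝ) * (q * (2 / m))) + 2 * q ^ 4 / m = (4 * q ^ 2 + 2 * q ^ 4) / m := by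
    ring
  have h6 : (4 * (q : ℝ) ^ 2 + 2 * q ^ 4) / m ≤ 12 * q ^ 4 / m := by
    apply div_le_div_of_nonneg_right _ hm'.le
    have : (0 : ℝ) ≤ (q : ℝ) ^ 4 := by positivity
    linarith
  linarith

end main

end Pool.Agent.H32.SQ.DFB
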