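import Pool.Agent.H75.SQ.Basic

/-!
# (GRO): the algorithm of Grover
-/

set_option autoImplicit false

open Finset Matrix Pool.Agent.H75.SQ

namespace Pool.Agent.H32.SQ.GRO

section refl

variable {ι : Type} [Fintype ι] [DecidableEq ι]

/-- the reflection that fixes the unit vector `b` and negates its complement -/
def Rf (b : ι → ℝ) : Matrix ι ι ℂ :=
  fun x y => ((2 * b x * b y - (if x = y then 1 else 0) : ℝ) : ℂ)

theorem Rf_un (b : ι → ℝ) (hb : ∑ x, b x ^ 2 = 1) : Rf b ∈ unitaryGroup ι ℂ := by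
  rw [mem_unitaryGroup_iff]
  ext x z
  rw [Matrix.mul_apply]
  have h1 : ∀ y, Rf b x y * star (Rf b) y z =
      ((4 * b x * b z * b y ^ 2 - 2 * b x * (if z = y then b y else 0) -
        2 * b z * (if x = y then b y else 0) +
        (if x = y then (if z = y then 1 else 0) else 0) : ℝ) : ℂ) := by
    intro y
    rw [Matrix.star_apply]
    unfold Rf
    have h2 : star ((2 * b z * b y - (if z = y then 1 else 0) : ℝ) : ℂ) =
        ((2 * b z * b y - (if z = y then 1 else 0) : ℝ) : ℂ) := Complex.conj_ofReal _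
    rw [h2, ← Complex.ofReal_mul]
    congr 1
    by_cases h3 : x = y <;> by_cases h4 : z = y <;> simp only [h3, h4, if_true, if_false] <;> ring
  rw [Finset.sum_congr rfl fun y _ => h1 y, ← Complex.ofReal_sum, Finset.sum_add_distrib,
    Finset.sum_sub_distrib, Finset.sum_sub_distrib, ← Finset.mul_sum, ← Finset.mul_sum,
    ← Finset.mul_sum, hb, Finset.sum_ite_eq, Finset.sum_ite_eq, Finset.sum_ite_eq,
    Matrix.one_apply]
  simp only [Finset.mem_univ, if_true]
  by_cases h : x = z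
  · subst h
    simp only [if_true]
    rw [← Complex.ofReal_one]
    congr 1
    ring
  · rw [if_neg (fun h' => h h'.symm), if_neg h, ← Complex.ofReal_zero]
    congr 1
    ring

theorem Rf_mulVec (b s : ι → ℝ) : (Rf b).mulVec (fun x => ((s x : ℝ) : ℂ)) =
    fun x => ((2 * (∑ y, b y * s y) * b x - s x : ℝ) : ℂ) := by
  funext x
  rw [Matrix.mulVec, dotProduct]
  have h1 : ∀ y, Rf b x y * ((s y : ℝ) : ℂ) =
      ((2 * b x * (b y * s y) - (if x = y then s y else 0) : ℝ) : ℂ) := by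
    intro y
    unfold Rf
    rw [← Complex.ofReal_mul]
    congr 1
    by_cases h3 : x = y <;> simp only [h3, if_true, if_false] <;> ring
  rw [Finset.sum_congr rfl fun y _ => h1 y, ← Complex.ofReal_sum,
    Finset.sum_sub_distrib, ← Finset.mul_sum, Finset.sum_ite_eq]
  simp only [Finset.mem_univ, if_true]
  congr 1
  ring

theorem sum_two (x0 : ι) (a b : ℝ) :
    ∑ y, (if y = x0 then a else b) = a + ((Fintype.card ι : ℝ) - 1) * b := by
  have h : ∀ y, (if y = x0 then a else b) = (if y = x0 then a - b else 0) + b := by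
    intro y
    by_cases hy : y = x0 <;> simp [hy]
  rw [Finset.sum_congr rfl fun y _ => h y, Finset.sum_add_distrib, Finset.sum_ite_eq',
    Finset.sum_const, Finset.card_univ, nsmul_eq_mul]
  simp only [Finset.mem_univ, if_true]
  ring

end refl

/-- the number of rounds -/
theorem rounds (N : ℕ) (hN : 0 < N) (θ : ℝ) (h1 : Real.sin θ = 1 / Real.sqrt N) (h2 : 0 < θ)
    (h3 : θ ≤ Real.pi / 2) : ∃ K : ℕ, 0 < K ∧ (K : ℝ) ≤ Real.sqrt N + 1 ∧
      1 - 1 / (N : ℝ) ≤ Real.sin (2 * K * θ) ^ 2 := by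
  have hN' : (0 : ℝ) < N := by exact_mod_cast hN
  have hs : 0 < Real.sqrt N := Real.sqrt_pos.2 hN'
  have hpi := Real.pi_pos
  refine ⟨⌊Real.pi / (4 * θ) + 1 / 2⌋₊, ?_, ?_, ?_⟩
  · rw [Nat.floor_pos]
    have h4 : 1 / 2 ≤ Real.pi / (4 * θ) := by
      rw [le_div_iff₀ (by positivity)]
      linarith
    linarith
  · have h5 : ((⌊Real.pi / (4 * θ) + 1 / 2⌋₊ : ℕ) : ℝ) ≤ Real.pi / (4 * θ) + 1 / 2 :=
      Nat.floor_le (by positivity)
    have h6 : Real.pi / (4 * θ) ≤ Real.sqrt N := by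
      rw [div_le_iff₀ (by positivity)]
      have h7 : 1 / Real.sqrt N ≤ θ := by rw [← h1]; exact Real.sin_le h2.le
      have h8 : 1 ≤ Real.sqrt N * θ := by
        rw [div_le_iff₀ hs] at h7
        linarith
      have h9 := Real.pi_le_four
      nlinarith
    linarith
  · set K := ⌊Real.pi / (4 * θ) + 1 / 2⌋₊ with hK
    have h5 : (K : ℝ) ≤ Real.pi / (4 * θ) + 1 / 2 := Nat.floor_le (by positivity)
    have h6 : Real.pi / (4 * θ) + 1 / 2 < (K : ℝ) + 1 := Nat.lt_floor_add_one _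
    have e : Real.pi / (4 * θ) * (2 * θ) = Real.pi / 2 := by field_simp; ring
    have h7 : 2 * K * θ ≤ Real.pi / 2 + θ := by
      have := mul_le_mul_of_nonneg_right h5 (by linarith : (0 : ℝ) ≤ 2 * θ)
      nlinarith
    have h8 : Real.pi / 2 - θ ≤ 2 * K * θ := by
      have := mul_le_mul_of_nonneg_right h6.le (by linarith : (0 : ℝ) ≤ 2 * θ)
      nlinarith
    have h9 : Real.sin (2 * K * θ) = Real.cos |2 * K * θ - Real.pi / 2| := by
      rw [Real.cos_abs, Real.cos_sub_pi_div_two]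
    have h10 : |2 * K * θ - Real.pi / 2| ≤ θ := by
      rw [abs_le]
      constructor <;> linarith
    have h11 : Real.cos θ ≤ Real.cos |2 * K * θ - Real.pi / 2| :=
      Real.cos_le_cos_of_nonneg_of_le_pi (abs_nonneg _) (by linarith) h10
    have h12 : 0 ≤ Real.cos θ := Real.cos_nonneg_of_mem_Icc ⟨by linarith, h3⟩
    have h13 : 1 - 1 / (N : ℝ) = Real.cos θ ^ 2 := by
      have := Real.sin_sq_add_cos_sq θ
      rw [h1, div_pow, Real.sq_sqrt hN'.le, one_pow] at this
      linarith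
    rw [h13, h9]
    exact pow_le_pow_left₀ h12 h11 2

section run

variable {ι : Type} [Fintype ι] [DecidableEq ι]

/-- one round, for one marked point -/
theorem round (x0 : ι) (N : ℕ) (hN : 0 < N) (hc : Fintype.card ι = N) (θ φ : ℝ)
    (h1 : Real.sin θ = 1 / Real.sqrt N) (h2 : 0 ≤ Real.cos θ) :
    ∑ y : ι, 1 / Real.sqrt N * (if y = x0 then -Real.sin φ else
      Real.cos φ / Real.sqrt ((N : ℝ) - 1)) = Real.cos (φ + θ) ∧
    ∀ x : ι, 2 * Real.cos (φ + θ) * (1 / Real.sqrt N) - (if x = x0 then -Real.sin φ else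
      Real.cos φ / Real.sqrt ((N : ℝ) - 1)) = if x = x0 then Real.sin (φ + 2 * θ) else
      Real.cos (φ + 2 * θ) / Real.sqrt ((N : ℝ) - 1) := by
  have hN' : (1 : ℝ) ≤ N := by exact_mod_cast hN
  have hs : 0 < Real.sqrt N := Real.sqrt_pos.2 (by linarith)
  have hcos : Real.cos θ = Real.sqrt ((N : ℝ) - 1) / Real.sqrt N := by
    have h3 := Real.sin_sq_add_cos_sq θ
    rw [h1, div_pow, Real.sq_sqrt (by linarith), one_pow] at h3
    have h4 : Real.cos θ ^ 2 = (Real.sqrt ((N : ℝ) - 1) / Real.sqrt N) ^ 2 := by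
      rw [div_pow, Real.sq_sqrt (by linarith), Real.sq_sqrt (by linarith)]
      have h5 : Real.cos θ ^ 2 = 1 - 1 / (N : ℝ) := by linarith
      rw [h5]
      field_simp
    exact (pow_left_inj₀ h2 (by positivity) (by norm_num)).1 h4
  have hA : Real.cos (φ + 2 * θ) = 2 * Real.cos (φ + θ) * Real.cos θ - Real.cos φ := by
    have e1 : φ + 2 * θ = (φ + θ) + θ := by ring
    have e2 : Real.cos φ = Real.cos ((φ + θ) - θ) := by congr 1; ring
    rw [e1, e2, Real.cos_add (φ + θ) θ, Real.cos_sub (φ + θ) θ]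
    ring
  have hB : Real.sin (φ + 2 * θ) = 2 * Real.cos (φ + θ) * Real.sin θ + Real.sin φ := by
    have e1 : φ + 2 * θ = (φ + θ) + θ := by ring
    have e2 : Real.sin φ = Real.sin ((φ + θ) - θ) := by congr 1; ring
    rw [e1, e2, Real.sin_add (φ + θ) θ, Real.sin_sub (φ + θ) θ]
    ring
  constructor
  · rw [← Finset.mul_sum, sum_two, hc, Real.cos_add, h1, hcos]
    have h3 : ((N : ℝ) - 1) * (Real.cos φ / Real.sqrt ((N : ℝ) - 1)) =
        Real.cos φ * Real.sqrt ((N : ℝ) - 1) := by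
      rw [mul_div_assoc', mul_comm ((N : ℝ) - 1), mul_div_assoc, Real.div_sqrt]
    rw [h3]
    field_simp
    ring
  · intro x
    by_cases hx : x = x0
    · rw [if_pos hx, if_pos hx, hB, h1]
      ring
    · rw [if_neg hx, if_neg hx, hA, hcos]
      have hN2 : 1 < N := by
        rw [← hc]
        exact Fintype.one_lt_card_iff.2 ⟨x, x0, hx⟩
      have hN3 : (0 : ℝ) < (N : ℝ) - 1 := by
        have : (1 : ℝ) < N := by exact_mod_cast hN2
        linarith
      have hs2 : 0 < Real.sqrt ((N : ℝ) - 1) := Real.sqrt_pos.2 hN3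
      field_simp

end run

section alg

variable {γ : Type} [Fintype γ] [DecidableEq γ]

theorem sum_b (N : ℕ) (hN : 0 < N) (x0 : Fin N × Fin 1) :
    ∑ x : Fin N × Fin 1, (((if x = x0 then 1 + 1 / Real.sqrt N else 1 / Real.sqrt N) /
      Real.sqrt (2 + 2 / Real.sqrt N)) ^ 2) = 1 := by
  have hN' : (0 : ℝ) < N := by exact_mod_cast hN
  have hs : 0 < Real.sqrt N := Real.sqrt_pos.2 hN'
  have h1 : ∀ x : Fin N × Fin 1, (((if x = x0 then 1 + 1 / Real.sqrt N else 1 / Real.sqrt N) /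
      Real.sqrt (2 + 2 / Real.sqrt N)) ^ 2) = if x = x0 then
        (1 + 1 / Real.sqrt N) ^ 2 / (2 + 2 / Real.sqrt N) else
        (1 / Real.sqrt N) ^ 2 / (2 + 2 / Real.sqrt N) := by
    intro x
    have h2 : Real.sqrt (2 + 2 / Real.sqrt N) ^ 2 = 2 + 2 / Real.sqrt N :=
      Real.sq_sqrt (by positivity)
    rw [div_pow, h2]
    by_cases h : x = x0
    · rw [if_pos h, if_pos h]
    · rw [if_neg h, if_neg h]
  rw [Finset.sum_congr rfl fun x _ => h1 x, sum_two]
  have h3 : Fintype.card (Fin N × Fin 1) = N := by simp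
  rw [h3]
  have h4 : Real.sqrt N ^ 2 = N := Real.sq_sqrt hN'.le
  have h5 : (1 + 1 / Real.sqrt N) ^ 2 + ((N : ℝ) - 1) * (1 / Real.sqrt N) ^ 2 =
      2 + 2 / Real.sqrt N := by
    field_simp
    nlinarith
  rw [mul_div_assoc', ← add_div, h5]
  exact div_self (by positivity)

theorem sum_u (N : ℕ) (hN : 0 < N) :
    ∑ _x : Fin N × Fin 1, (1 / Real.sqrt N) ^ 2 = 1 := by
  have hN' : (0 : ℝ) < N := by exact_mod_cast hN
  rw [Finset.sum_const, Finset.card_univ, nsmul_eq_mul, div_pow, Real.sq_sqrt hN'.le]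
  have h3 : Fintype.card (Fin N × Fin 1) = N := by simp
  rw [h3]
  field_simp

/-- the bisector of the uniform vector and the basis vector `x0` -/
noncomputable def bb (N : ℕ) (x0 : Fin N × Fin 1) (x : Fin N × Fin 1) : ℝ :=
  (if x = x0 then 1 + 1 / Real.sqrt N else 1 / Real.sqrt N) / Real.sqrt (2 + 2 / Real.sqrt N)

/-- the algorithm -/
noncomputable def gr (m q N K : ℕ) (hN : 0 < N)
    (M : Fin N → Matrix (Fin q → Fin m × γ) (Fin q → Fin m × γ) ℂ) (hM : ∀ i, Obs (M i)) :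
    Alg q m γ where
  a := N
  d := 1
  M := M
  obs := hM
  U := fun t => if t = 0 then 1 else if t = K then Rf (bb N (⟨0, hN⟩, 0)) else
    Rf (fun _ => 1 / Real.sqrt N)
  un := by
    intro t
    by_cases h0 : t = 0
    · simp only [h0, if_true]
      exact Submonoid.one_mem _
    · simp only [h0, if_false]
      by_cases h1 : t = K
      · simp only [h1, if_true]
        exact Rf_un _ (sum_b N hN _)
      · simp only [h1, if_false]
        exact Rf_un _ (sum_u N hN)
  R := fun _ x => if 1 / 2 ≤ x then -1 else 1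
  ur := by
    intro i x
    by_cases h : 1 / 2 ≤ x
    · simp only [h, if_true]
      rw [mem_unitaryGroup_iff]
      simp
    · simp only [h, if_false]
      exact Submonoid.one_mem _
  start := fun _ => ((1 / Real.sqrt N : ℝ) : ℂ)
  unit := by
    have h : ∀ x : Fin N × Fin 1, ‖((1 / Real.sqrt N : ℝ) : ℂ)‖ ^ 2 = (1 / Real.sqrt N) ^ 2 := by
      intro x
      rw [Complex.norm_real, Real.norm_eq_abs, sq_abs]
    rw [Finset.sum_congr rfl fun x _ => h x]
    exact sum_u N hN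
  acc := Finset.univ.erase (⟨0, hN⟩, 0)

/-- the reflection, for real vectors -/
def Rr (N : ℕ) (b s : Fin N × Fin 1 → ℝ) (x : Fin N × Fin 1) : ℝ := 2 * (∑ y, b y * s y) * b x - s x

theorem Rr_sq (N : ℕ) (b s : Fin N × Fin 1 → ℝ) (hb : ∑ x, b x ^ 2 = 1) :
    ∑ x, Rr N b s x ^ 2 = ∑ x, s x ^ 2 := by
  have h : ∀ x, Rr N b s x ^ 2 = 4 * (∑ y, b y * s y) ^ 2 * b x ^ 2 -
      4 * (∑ y, b y * s y) * (b x * s x) + s x ^ 2 := by
    intro x
    unfold Rr
    ring
  rw [Finset.sum_congr rfl fun x _ => h x, Finset.sum_add_distrib, Finset.sum_sub_distrib,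
    ← Finset.mul_sum, ← Finset.mul_sum, hb]
  ring

/-- the real state -/
noncomputable def ST (N K : ℕ) (x0 : Fin N × Fin 1) (v : Fin N → ℝ) : ℕ → Fin N × Fin 1 → ℝ
  | 0 => fun _ => 1 / Real.sqrt N
  | t + 1 => Rr N (if t + 1 = K then bb N x0 else fun _ => 1 / Real.sqrt N)
      (fun x => (if 1 / 2 ≤ v x.1 then -1 else 1) * ST N K x0 v t x)

theorem ST_sq (N K : ℕ) (hN : 0 < N) (x0 : Fin N × Fin 1) (v : Fin N → ℝ) (t : ℕ) :
    ∑ x, ST N K x0 v t x ^ 2 = 1 := by
  induction t with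
  | zero => exact sum_u N hN
  | succ t ih =>
    change ∑ x, Rr N (if t + 1 = K then bb N x0 else fun _ => 1 / Real.sqrt N)
      (fun x => (if 1 / 2 ≤ v x.1 then -1 else 1) * ST N K x0 v t x) x ^ 2 = 1
    rw [Rr_sq]
    · refine Eq.trans (Finset.sum_congr rfl fun x _ => ?_) ih
      by_cases h : 1 / 2 ≤ v x.1
      · rw [if_pos h]; ring
      · rw [if_neg h]; ring
    · by_cases h : t + 1 = K
      · rw [if_pos h]
        exact sum_b N hN x0
      · rw [if_neg h]
        exact sum_u N hN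

theorem gr_st (m q N K : ℕ) (hN : 0 < N)
    (M : Fin N → Matrix (Fin q → Fin m × γ) (Fin q → Fin m × γ) ℂ) (hM : ∀ i, Obs (M i))
    (v : Fin N → ℝ) (t : ℕ) : (gr m q N K hN M hM).st v t =
      fun x : Fin N × Fin 1 => ((ST N K (⟨0, hN⟩, 0) v t x : ℝ) : ℂ) := by
  induction t with
  | zero =>
    have h : (gr m q N K hN M hM).st v 0 =
      (1 : Matrix (Fin N × Fin 1) (Fin N × Fin 1) ℂ).mulVec
        (fun _ => ((1 / Real.sqrt N : ℝ) : ℂ)) := rfl
    rw [h, Matrix.one_mulVec]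
    rfl
  | succ t ih =>
    have h1 : (gr m q N K hN M hM).st v (t + 1) =
        (if t + 1 = 0 then (1 : Matrix (Fin N × Fin 1) (Fin N × Fin 1) ℂ) else
          if t + 1 = K then Rf (bb N (⟨0, hN⟩, 0)) else Rf (fun _ => 1 / Real.sqrt N)).mulVec
          (fun y : Fin N × Fin 1 => ∑ c : Fin 1,
            (if 1 / 2 ≤ v y.1 then (-1 : Matrix (Fin 1) (Fin 1) ℂ) else 1) y.2 c *
              (gr m q N K hN M hM).st v t (y.1, c)) := rfl
    rw [h1, ih]
    have h2 : (fun y : Fin N × Fin 1 => ∑ c : Fin 1,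
            (if 1 / 2 ≤ v y.1 then (-1 : Matrix (Fin 1) (Fin 1) ℂ) else 1) y.2 c *
              ((fun x : Fin N × Fin 1 => ((ST N K (⟨0, hN⟩, 0) v t x : ℝ) : ℂ)) (y.1, c))) =
        fun y => (((if 1 / 2 ≤ v y.1 then -1 else 1) * ST N K (⟨0, hN⟩, 0) v t y : ℝ) : ℂ) := by
      funext y
      rw [Fin.sum_univ_one]
      have h2 : y.2 = 0 := Subsingleton.elim _ _
      have hy : (y.1, (0 : Fin 1)) = y := by
        apply Prod.ext
        · rfl
        · exact Subsingleton.elim _ _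
      rw [h2, hy]
      by_cases h : 1 / 2 ≤ v y.1
      · rw [if_pos h, if_pos h]
        simp
      · rw [if_neg h, if_neg h]
        simp
    refine (congrArg (fun w => Matrix.mulVec (if t + 1 = 0 then
      (1 : Matrix (Fin N × Fin 1) (Fin N × Fin 1) ℂ) else
      if t + 1 = K then Rf (bb N (⟨0, hN⟩, 0)) else Rf (fun _ => 1 / Real.sqrt N)) w) h2).trans ?_
    rw [if_neg (by omega)]
    by_cases h : t + 1 = K
    · rw [if_pos h, Rf_mulVec]
      funext x
      congr 1
      change _ = Rr N (if t + 1 = K then bb N _ else fun _ => 1 / Real.sqrt N) _ x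
      rw [if_pos h]
      rfl
    · rw [if_neg h, Rf_mulVec]
      funext x
      congr 1
      change _ = Rr N (if t + 1 = K then bb N _ else fun _ => 1 / Real.sqrt N) _ x
      rw [if_neg h]
      rfl

/-- the reflection and the uniform vector -/
theorem bb_u (N : ℕ) (hN : 0 < N) (x0 : Fin N × Fin 1) (σ : Fin N × Fin 1 → ℝ) :
    Rr N (bb N x0) σ x0 = ∑ y : Fin N × Fin 1, 1 / Real.sqrt N * σ y := by
  have hN' : (0 : ℝ) < N := by exact_mod_cast hN
  have hsq : 0 < Real.sqrt N := Real.sqrt_pos.2 hN'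
  unfold Rr
  have h3 : ∀ y : Fin N × Fin 1, bb N x0 x0 * bb N x0 y * 2 =
      1 / Real.sqrt N + if y = x0 then 1 else 0 := by
    intro y
    unfold bb
    have h4 : Real.sqrt (2 + 2 / Real.sqrt N) ^ 2 = 2 + 2 / Real.sqrt N :=
      Real.sq_sqrt (by positivity)
    have h5 : 0 < Real.sqrt (2 + 2 / Real.sqrt N) := Real.sqrt_pos.2 (by positivity)
    rw [if_pos rfl, div_mul_div_comm, ← sq, h4]
    by_cases hy : y = x0
    · rw [if_pos hy, if_pos hy]
      field_simp
      ring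
    · rw [if_neg hy, if_neg hy]
      field_simp
      ring
  have h6 : 2 * (∑ y, bb N x0 y * σ y) * bb N x0 x0 =
      ∑ y : Fin N × Fin 1, (1 / Real.sqrt N * σ y + if y = x0 then σ y else 0) := by
    rw [Finset.mul_sum, Finset.sum_mul]
    refine Finset.sum_congr rfl fun y _ => ?_
    have := h3 y
    calc 2 * (bb N x0 y * σ y) * bb N x0 x0 = (bb N x0 x0 * bb N x0 y * 2) * σ y := by ring
      _ = _ := by
        rw [this]
        by_cases hy : y = x0
        · rw [if_pos hy, if_pos hy]; ring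
        · rw [if_neg hy, if_neg hy]; ring
  rw [h6, Finset.sum_add_distrib, Finset.sum_ite_eq']
  simp only [Finset.mem_univ, if_true]
  ring

/-- the acceptance probability -/
theorem gr_pr (m q N K : ℕ) (hN : 0 < N)
    (M : Fin N → Matrix (Fin q → Fin m × γ) (Fin q → Fin m × γ) ℂ) (hM : ∀ i, Obs (M i))
    (v : Fin N → ℝ) :
    (gr m q N (K + 1) hN M hM).pr (K + 1) v = 1 -
      (∑ y : Fin N × Fin 1, 1 / Real.sqrt N *
        ((if 1 / 2 ≤ v y.1 then -1 else 1) * ST N (K + 1) (⟨0, hN⟩, 0) v K y)) ^ 2 := by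
  have h1 : (gr m q N (K + 1) hN M hM).pr (K + 1) v =
      ∑ x ∈ (Finset.univ : Finset (Fin N × Fin 1)).erase (⟨0, hN⟩, 0),
        ‖(gr m q N (K + 1) hN M hM).st v (K + 1) x‖ ^ 2 := rfl
  rw [h1, gr_st]
  have h2 : ∀ x : Fin N × Fin 1, ‖((ST N (K + 1) (⟨0, hN⟩, 0) v (K + 1) x : ℝ) : ℂ)‖ ^ 2 =
      ST N (K + 1) (⟨0, hN⟩, 0) v (K + 1) x ^ 2 := by
    intro x
    rw [Complex.norm_real, Real.norm_eq_abs, sq_abs]
  rw [Finset.sum_congr rfl fun x _ => h2 x]
  have h6 := Finset.sum_erase_add (Finset.univ : Finset (Fin N × Fin 1))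
    (fun x => ST N (K + 1) (⟨0, hN⟩, 0) v (K + 1) x ^ 2)
    (Finset.mem_univ ((⟨0, hN⟩, 0) : Fin N × Fin 1))
  rw [ST_sq N (K + 1) hN] at h6
  have h7 : ST N (K + 1) (⟨0, hN⟩, 0) v (K + 1) (⟨0, hN⟩, 0) =
      ∑ y : Fin N × Fin 1, 1 / Real.sqrt N *
        ((if 1 / 2 ≤ v y.1 then -1 else 1) * ST N (K + 1) (⟨0, hN⟩, 0) v K y) := by
    rw [← bb_u N hN]
    change Rr N (if K + 1 = K + 1 then bb N _ else fun _ => 1 / Real.sqrt N) _ _ = _
    rw [if_pos rfl]
  rw [← h7]
  linarith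

/-- a round before the last one -/
theorem ST_succ (N K : ℕ) (x0 : Fin N × Fin 1) (v : Fin N → ℝ) (t : ℕ) (h : t + 1 ≠ K)
    (x : Fin N × Fin 1) : ST N K x0 v (t + 1) x = 2 * (∑ y : Fin N × Fin 1,
      1 / Real.sqrt N * ((if 1 / 2 ≤ v y.1 then -1 else 1) * ST N K x0 v t y)) *
        (1 / Real.sqrt N) - (if 1 / 2 ≤ v x.1 then -1 else 1) * ST N K x0 v t x := by
  change Rr N (if t + 1 = K then bb N _ else fun _ => 1 / Real.sqrt N) _ x = _
  rw [if_neg h]
  rfl

end alg

theorem pf_GRO (_hHYA : T_HYA) : T_GRO := by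
  intro γ _ _ m q N M hN hM
  have hN' : (0 : ℝ) < N := by exact_mod_cast hN
  have hN1 : (1 : ℝ) ≤ N := by exact_mod_cast hN
  have hsq : 0 < Real.sqrt N := Real.sqrt_pos.2 hN'
  have hsq1 : 1 ≤ Real.sqrt N := Real.one_le_sqrt.2 hN1
  have hx0 : 0 < 1 / Real.sqrt N := by positivity
  have hx1 : 1 / Real.sqrt N ≤ 1 := by
    rw [div_le_one hsq]
    exact hsq1
  obtain ⟨θ, hθ⟩ : ∃ θ, θ = Real.arcsin (1 / Real.sqrt N) := ⟨_, rfl⟩
  have h1 : Real.sin θ = 1 / Real.sqrt N := by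
    rw [hθ]
    exact Real.sin_arcsin (by linarith) hx1
  have h2 : 0 < θ := by
    rw [hθ]
    exact Real.arcsin_pos.2 hx0
  have h3 : θ ≤ Real.pi / 2 := by
    rw [hθ]
    exact Real.arcsin_le_pi_div_two _
  have h4 : 0 ≤ Real.cos θ := by
    rw [hθ]
    exact Real.cos_arcsin_nonneg _
  obtain ⟨K, hK0, hK1, hK2⟩ := rounds N hN θ h1 h2 h3
  obtain ⟨K, rfl⟩ : ∃ K', K = K' + 1 := ⟨K - 1, by omega⟩
  have hcard : Fintype.card (Fin N × Fin 1) = N := by simp
  refine ⟨gr m q N (K + 1) hN M hM, K + 1, hK1, ?_⟩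
  intro F v hv
  change Fin N → ℝ at v
  have hv' : ∀ i : Fin N, |v i - ex F (M i)| ≤ 1 / 4 := hv
  rw [gr_pr m q N K hN M hM v]
  obtain ⟨o, ho⟩ : ∃ o : Fin N × Fin 1, o = (⟨0, hN⟩, 0) := ⟨_, rfl⟩
  rw [← ho]
  constructor
  · rintro ⟨i0, hi0, hi⟩
    have hs0 : 1 / 2 ≤ v i0 := by
      have := abs_le.1 (hv' i0)
      linarith
    have hs1 : ∀ i, i ≠ i0 → ¬ 1 / 2 ≤ v i := by
      intro i hii hc
      have := abs_le.1 (hv' i)
      have := hi i hii
      linarith
    have hsgn : ∀ (x : Fin N × Fin 1) (a b : ℝ), ((if 1 / 2 ≤ v x.1 then -1 else 1) *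
        (if x = (i0, 0) then a else b) : ℝ) = if x = (i0, 0) then -a else b := by
      intro x a b
      by_cases hx : x = (i0, 0)
      · rw [if_pos hx, if_pos hx, hx, if_pos hs0]
        ring
      · rw [if_neg hx, if_neg hx, if_neg]
        · ring
        · apply hs1
          intro h
          exact hx (Prod.ext h (Subsingleton.elim _ _))
    have hst : ∀ t : ℕ, t < K + 1 → ∀ x : Fin N × Fin 1, ST N (K + 1) o v t x =
        if x = (i0, 0) then Real.sin ((2 * t + 1) * θ) else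
          Real.cos ((2 * t + 1) * θ) / Real.sqrt ((N : ℝ) - 1) := by
      intro t
      induction t with
      | zero =>
        intro _ x
        change 1 / Real.sqrt N = _
        have hr := (round (i0, (0 : Fin 1)) N hN hcard θ (-θ) h1 h4).2 x
        have e1 : -θ + θ = 0 := by ring
        have e2 : -θ + 2 * θ = θ := by ring
        have e3 : (2 * ((0 : ℕ) : ℝ) + 1) * θ = θ := by push_cast; ring
        rw [e1, e2, Real.cos_zero, Real.sin_neg, Real.cos_neg] at hr
        rw [e3]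
        by_cases hx : x = (i0, 0)
        · rw [if_pos hx, h1]
        · rw [if_neg hx] at hr ⊢
          rw [if_neg hx] at hr
          linarith
      | succ t ih =>
        intro ht x
        have hr := round (i0, (0 : Fin 1)) N hN hcard θ ((2 * t + 1) * θ) h1 h4
        rw [ST_succ N (K + 1) o v t (by omega) x]
        simp only [ih (by omega), hsgn]
        rw [hr.1, hr.2 x]
        have e3 : (2 * ((t + 1 : ℕ) : ℝ) + 1) * θ = (2 * t + 1) * θ + 2 * θ := by
          push_cast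
          ring
        rw [e3]
    have hr := round (i0, (0 : Fin 1)) N hN hcard θ ((2 * (K : ℝ) + 1) * θ) h1 h4
    simp only [hst K (by omega), hsgn]
    rw [hr.1]
    have e4 : (2 * (K : ℝ) + 1) * θ + θ = 2 * ((K + 1 : ℕ) : ℝ) * θ := by
      push_cast
      ring
    rw [e4]
    have := Real.sin_sq_add_cos_sq (2 * ((K + 1 : ℕ) : ℝ) * θ)
    linarith
  · intro hi
    have hs1 : ∀ i, ¬ 1 / 2 ≤ v i := by
      intro i hc
      have := abs_le.1 (hv' i)
      have := hi i
      linarith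
    have hsum : ∑ _y : Fin N × Fin 1, 1 / Real.sqrt N * (1 * (1 / Real.sqrt N)) = 1 := by
      refine Eq.trans (Finset.sum_congr rfl fun _ _ => ?_) (sum_u N hN)
      ring
    have hst : ∀ t : ℕ, t < K + 1 → ∀ x : Fin N × Fin 1,
        ST N (K + 1) o v t x = 1 / Real.sqrt N := by
      intro t
      induction t with
      | zero => intro _ x; rfl
      | succ t ih =>
        intro ht x
        rw [ST_succ N (K + 1) o v t (by omega) x]
        simp only [hs1, if_false, ih (by omega)]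
        rw [hsum]
        ring
    simp only [hs1, if_false, hst K (by omega)]
    rw [hsum]
    norm_num

end Pool.Agent.H32.SQ.GRO
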