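import Pool.Agent.H75.SQ.Basic

/-!
# (VAN): the terms with different sets of indices vanish
-/

set_option autoImplicit false

open Finset Matrix Pool.Agent.H75.SQ

namespace Pool.Agent.H32.SQ.VAN

theorem pf_VAN : T_VAN := by
  intro γ _ _ w hw m q j j' A A' hj hj' hne
  obtain ⟨i1, hi1⟩ : ∃ i, j i ∉ Set.range j' := by
    by_contra hc
    push Not at hc
    apply hne
    have hsub : Set.range j ⊆ Set.range j' := by
      rintro _ ⟨i, rfl⟩
      exact hc i
    apply Set.eq_of_subset_of_ncard_le hsub
    rw [← Set.image_univ, ← Set.image_univ, Set.ncard_image_of_injective _ hj,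
      Set.ncard_image_of_injective _ hj']
  rw [EF_update w hw m (j i1)]
  have key : ∀ F : Fin m → γ, ∑ C, w C *
      ((∏ i, ((if Function.update F (j i1) C (j i) = A i then (1 : ℝ) else 0) - w (A i))) *
      ∏ i, ((if Function.update F (j i1) C (j' i) = A' i then (1 : ℝ) else 0) - w (A' i))) =
      0 := by
    intro F
    have h1 : ∀ C : γ,
        (∏ i, ((if Function.update F (j i1) C (j i) = A i then (1 : ℝ) else 0) - w (A i))) =
        ((if C = A i1 then (1 : ℝ) else 0) - w (A i1)) *
          ∏ i ∈ univ.erase i1, ((if F (j i) = A i then (1 : ℝ) else 0) - w (A i)) := by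
      intro C
      rw [← Finset.mul_prod_erase univ _ (Finset.mem_univ i1), Function.update_self]
      congr 1
      refine Finset.prod_congr rfl fun i hi => ?_
      rw [Function.update_of_ne]
      intro h
      exact (Finset.ne_of_mem_erase hi) (hj h)
    have h2 : ∀ C : γ,
        (∏ i, ((if Function.update F (j i1) C (j' i) = A' i then (1 : ℝ) else 0) - w (A' i))) =
        ∏ i, ((if F (j' i) = A' i then (1 : ℝ) else 0) - w (A' i)) := by
      intro C
      refine Finset.prod_congr rfl fun i _ => ?_
      rw [Function.update_of_ne]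
      intro h
      exact hi1 ⟨i, h⟩
    simp only [h1, h2]
    have h3 : ∀ C : γ, w C * (((if C = A i1 then (1 : ℝ) else 0) - w (A i1)) *
          (∏ i ∈ univ.erase i1, ((if F (j i) = A i then (1 : ℝ) else 0) - w (A i))) *
        ∏ i, ((if F (j' i) = A' i then (1 : ℝ) else 0) - w (A' i))) =
        ((if C = A i1 then w C else 0) - w (A i1) * w C) *
          ((∏ i ∈ univ.erase i1, ((if F (j i) = A i then (1 : ℝ) else 0) - w (A i))) *
        ∏ i, ((if F (j' i) = A' i then (1 : ℝ) else 0) - w (A' i))) := by
      intro C
      by_cases hC : C = A i1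
      · rw [if_pos hC, if_pos hC]
        ring
      · rw [if_neg hC, if_neg hC]
        ring
    simp only [h3]
    rw [← Finset.sum_mul, Finset.sum_sub_distrib, ← Finset.mul_sum, hw.2,
      Finset.sum_ite_eq' univ (A i1) w, if_pos (Finset.mem_univ _)]
    ring
  simp only [key]
  exact EF_const w hw m 0

end Pool.Agent.H32.SQ.VAN
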